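import Pool.Agent.N139.FG.Stm

/-! Paths of idempotents have constant trace. -/

set_option autoImplicit false

namespace Pool.Agent.N513.FG

open N139.FG Topology

/-- Close idempotents are similar, so they have the same trace. -/
theorem tr_eq {D : Type} [CStarAlgebra D] (τ : D →L[ℂ] ℂ) (hτ : ∀ a b, τ (a * b) = τ (b * a))
    (e f : D) (he : e * e = e) (hf : f * f = f)
    (hn : ‖1 - (e * f + (1 - e) * (1 - f))‖ < 1) : τ f = τ e := by
  have hu : IsUnit (e * f + (1 - e) * (1 - f)) := by
    have h := isUnit_one_sub_of_norm_lt_one hn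
    rwa [sub_sub_cancel] at h
  obtain ⟨z, hz⟩ := hu
  have h1 : (z : D) * f = e * z := by
    have a1 : (e * f + (1 - e) * (1 - f)) * f = e * (f * f) + (1 - e) * (f - f * f) := by
      noncomm_ring
    have a2 : e * (e * f + (1 - e) * (1 - f)) = e * e * f + (e - e * e) * (1 - f) := by
      noncomm_ring
    rw [hz, a1, a2, he, hf, sub_self, sub_self, mul_zero, zero_mul]
  calc τ f = τ ((↑z⁻¹ : D) * ((z : D) * f)) := by
        rw [← mul_assoc, Units.inv_mul, one_mul]
    _ = τ ((↑z⁻¹ : D) * (e * (z : D))) := by rw [h1]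
    _ = τ ((e * (z : D)) * (↑z⁻¹ : D)) := hτ _ _
    _ = τ e := by rw [mul_assoc, Units.mul_inv, mul_one]

/-- Paths of idempotents have constant trace. -/
theorem t_PRJ : S_PRJ := by
  intro D _ τ hτ p hp
  have hl : IsLocallyConstant (fun t : unitInterval => τ (p t)) := by
    rw [IsLocallyConstant.iff_eventually_eq]
    intro s
    have hc : Continuous fun t : unitInterval => ‖1 - (p s * p t + (1 - p s) * (1 - p t))‖ := by
      fun_prop
    have h0 : ‖1 - (p s * p s + (1 - p s) * (1 - p s))‖ < 1 := by
      have : 1 - (p s * p s + (1 - p s) * (1 - p s)) = 0 := by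
        have a : 1 - (p s * p s + (1 - p s) * (1 - p s)) = (2 : ℕ) • (p s - p s * p s) := by
          noncomm_ring
        rw [a, hp s, sub_self, smul_zero]
      rw [this, norm_zero]
      exact one_pos
    have hev : ∀ᶠ t in 𝓝 s, ‖1 - (p s * p t + (1 - p s) * (1 - p t))‖ < 1 :=
      hc.continuousAt.eventually_lt_const h0
    filter_upwards [hev] with t ht
    exact tr_eq τ hτ (p s) (p t) (hp s) (hp t) ht
  exact hl.apply_eq_of_preconnectedSpace 0 1

end Pool.Agent.N513.FG
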